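import Pool.Agent.Helper83.UP.AbFin

/-!
# Simple facets with abelian rotation part (problem MP_f11cdf_co)

`P₁ = (G, σ)` a finite regular polytope of rank `n = m + 2 ≥ 3` whose vertex-figures are
simplices, of type `{p, 3, ..., 3}`, such that the products of two conjugates of the first
generator `σ 0` commute. `P₂` is the simplex of rank `n`.
-/

namespace Pool.Agent.Results.MP_f11cdf_co.AbelianRotations

open Pool.Agent.Helper23.UP Pool.Agent.Helper83.UP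

theorem result (m : ℕ) (hm : 1 ≤ m) (G : Type) [Group G] [Finite G] (σ : Fin (m + 2) → G)
    (hσ : IsStringC σ)
    -- the vertex-figures of `P₁` are simplices
    (hV : ∃ f : Equiv.Perm (Fin (m + 2)) →* G,
      Function.Injective f ∧ ∀ i, f (smp (m + 1) i) = σ i.succ)
    -- the products of two conjugates of `σ 0` commute
    (hG : ∀ a b c d : G, Commute ((a * σ 0 * a⁻¹) * (b * σ 0 * b⁻¹))
      ((c * σ 0 * c⁻¹) * (d * σ 0 * d⁻¹))) :
    -- `p` is even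
    Even (orderOf (σ 0 * σ 1)) ∧
    -- (Q1) existence
    ((∃ (Γ : Type) (_ : Group Γ) (ρ : Fin (m + 3) → Γ), HasFV σ (smp (m + 2)) ρ) ↔
      (vertSub σ).index = 2 * (orderOf (σ 0 * σ 1) / 2) ^ (m + 1)) ∧
    -- (Q2) finiteness and the order of the universal polytope
    ((∃ (Γ : Type) (_ : Group Γ) (ρ : Fin (m + 3) → Γ), HasFV σ (smp (m + 2)) ρ) →
      ∃ (Γ : Type) (_ : Group Γ) (ρ : Fin (m + 3) → Γ), IsUniversal σ (smp (m + 2)) ρ ∧
        Finite Γ ∧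
        Nat.card Γ = 2 * (orderOf (σ 0 * σ 1) / 2) ^ (m + 2) * (m + 3).factorial) := by
  obtain ⟨f, hfi, hf⟩ := hV
  have hG' : AbRot σ := hG
  have hq := q_eq σ hσ f hf hm hG'
  have hq0 : orderOf ((σ 0 * σ 1) ^ 2) ≠ 0 := (orderOf_pos _).ne'
  -- existence implies the number of vertices
  have h1 : (∃ (Γ : Type) (_ : Group Γ) (ρ : Fin (m + 3) → Γ), HasFV σ (smp (m + 2)) ρ) →
      (vertSub σ).index = 2 * (orderOf (σ 0 * σ 1) / 2) ^ (m + 1) := by
    rintro ⟨Γ, _, ρ, h⟩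
    obtain ⟨θ, hθi, hθ⟩ := h.fac
    obtain ⟨ψ, hψi, hψ⟩ := h.ver
    have hinj := PhiG_inj σ hσ f hf ρ h.str θ hθ ψ hψ hm hG' hθi hψi
    have hcard := Nat.card_congr (Equiv.ofBijective _ ⟨hinj, PhiG_surj σ hσ f hf hG'⟩)
    rw [du_card, card_G σ f hf hfi, hq] at hcard
    exact (Nat.eq_of_mul_eq_mul_right (Nat.factorial_pos _) hcard).symm
  -- the number of vertices implies existence
  have h2 : (vertSub σ).index = 2 * (orderOf (σ 0 * σ 1) / 2) ^ (m + 1) →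
      StrIso σ (dgen (orderOf ((σ 0 * σ 1) ^ 2)) (m + 1)) := by
    intro h
    have hfin : Finite (DU (orderOf ((σ 0 * σ 1) ^ 2)) (m + 1)) :=
      du_finite _ _ hq0
    have hsur := PhiG_surj σ hσ f hf hG'
    have hcard : Nat.card (DU (orderOf ((σ 0 * σ 1) ^ 2)) (m + 1)) ≤ Nat.card G := by
      rw [du_card, card_G σ f hf hfi, hq, h]
    have hbij := hsur.bijective_of_nat_card_le hcard
    refine ⟨(MulEquiv.ofBijective (PhiG σ hσ f hf hG') hbij).symm, ?_⟩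
    intro i
    rw [MulEquiv.symm_apply_eq]
    exact (PhiG_gen σ hσ f hf hG' i).symm
  have h3 : (vertSub σ).index = 2 * (orderOf (σ 0 * σ 1) / 2) ^ (m + 1) →
      HasFV σ (smp (m + 2)) (dgen (orderOf ((σ 0 * σ 1) ^ 2)) (m + 2)) := by
    intro h
    exact HasFV_congr _ _ _ _ _ (h2 h) ⟨MulEquiv.refl _, fun _ => rfl⟩ (dgen_FV _ (m + 1))
  refine ⟨even_p σ hσ f hf hm hG', ⟨h1, fun h => ⟨_, _, _, h3 h⟩⟩, ?_⟩
  intro h
  refine ⟨_, _, dgen (orderOf ((σ 0 * σ 1) ^ 2)) (m + 2), ⟨h3 (h1 h), ?_⟩, ?_, ?_⟩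
  · intro Γ' _ ρ' h'
    obtain ⟨θ, _, hθ⟩ := h'.fac
    obtain ⟨ψ, _, hψ⟩ := h'.ver
    exact exists_Phi σ hσ f hf ρ' h'.str θ hθ ψ hψ hm hG'
  · exact du_finite _ _ hq0
  · rw [du_card, hq]

end Pool.Agent.Results.MP_f11cdf_co.AbelianRotations
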