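import Pool.Agent.Helper83.UP.CubeQ3

/-!
# Quotients of `2^K` by codes and the cube (problem MP_f11cdf_co)

`n = k + 2 ≥ 2`, `K = cub k` the cube of rank `n - 1`, `P₂ = cub (k + 1)` the cube of rank `n`.
`C` is a code (a group of binary words, written multiplicatively) on the vertices of `K`,
invariant under the group of `K` and without words of weight one, and `P₁ = 2^K / C`.
-/

namespace Pool.Agent.Results.MP_f11cdf_co.CubeCodes

open Pool.Agent.Helper23.UP Pool.Agent.Helper83.UP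

theorem result :
    -- the polytope `2^K / C` exists and is unique
    (∀ (k : ℕ) (C : Subgroup (Wd (Q k))), InvQ k C → (∀ v, sgl v ∉ C) →
      (∃ (G : Type) (_ : Group G) (σ : Fin (k + 2) → G), Finite G ∧ IsQuot k C σ) ∧
      ∀ (G G' : Type) [Group G] [Group G'] (σ : Fin (k + 2) → G) (σ' : Fin (k + 2) → G'),
        IsQuot k C σ → IsQuot k C σ' → StrIso σ σ') ∧
    -- `P₁ = (G, σ) = 2^K / C`
    (∀ (k : ℕ) (C : Subgroup (Wd (Q k))) (G : Type) [Group G] (σ : Fin (k + 2) → G),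
      IsQuot k C σ →
      -- (Q1) existence
      ((∃ (Γ : Type) (_ : Group Γ) (ρ : Fin (k + 3) → Γ), HasFV σ (cub (k + 1)) ρ) ↔
        ExtQ k C) ∧
      (ExtQ k C → ∃ (Γ : Type) (_ : Group Γ) (ρ : Fin (k + 3) → Γ),
        IsUniversal σ (cub (k + 1)) ρ) ∧
      -- (Q2) finiteness, and the universal polytope
      (∀ (Γ : Type) [Group Γ] (ρ : Fin (k + 3) → Γ), IsUniversal σ (cub (k + 1)) ρ →
        (Finite Γ ↔ C ≠ ⊥) ∧ (C ≠ ⊥ → IsQuot (k + 1) (spanQ k C) ρ))) ∧
    -- the words of even weight on all faces of dimension greater than `r` form such a code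
    (∀ k r : ℕ, r ≤ k → ∃ C : Subgroup (Wd (Q k)), (∀ c, c ∈ C ↔ EvenOn k r c) ∧
      InvQ k C ∧ C ≠ ⊥ ∧ (∀ v, sgl v ∉ C) ∧ ExtQ k C) := by
  refine ⟨?_, ?_, ?_⟩
  · intro k C hC h1
    refine ⟨quot_exists k C hC h1, ?_⟩
    intro G G' _ _ σ σ' h h'
    obtain ⟨hC1, _, i1⟩ := quot_iso k C σ h
    obtain ⟨hC2, _, i2⟩ := quot_iso k C σ' h'
    exact strIso_trans i1 (strIso_symm i2)
  · intro k C G _ σ h
    exact quot_main k C σ h
  · intro k r hr
    have hC : ∀ c, c ∈ (evC k r).comap (pull k).toMonoidHom ↔ EvenOn k r c :=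
      fun c => (even_iff k r c).symm
    exact ⟨_, hC, even_code k r hr _ hC⟩

end Pool.Agent.Results.MP_f11cdf_co.CubeCodes
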