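import Pool.Agent.Helper23.UP.Neigh

/-!
# Universal regular polytopes (problem MP_f11cdf_co)

`P₁ = (G, σ)` finite regular of rank `n ≥ 3`, `P₂ = (W, τ)` regular with last entry of the
Schläfli symbol `3` and every entry `3` or prime to `3` (the convex simplex, cube,
dodecahedron, 24-cell and 120-cell are of this kind). Existence of `{P₁, P₂}` and its
finiteness when the facets of `P₁` that are equal or do not share a ridge form an
equivalence relation, and the complete classification when any two facets share a ridge.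
-/

namespace Pool.Agent.Results.MP_f11cdf_co.MultipartiteFacets

open Pool.Agent.Helper23.UP

theorem result :
    -- (1) finiteness and the bound for the number of facets
    (∀ (G W Γ : Type) [Group G] [Group W] [Group Γ] (n : ℕ) (_ : 3 ≤ n) (σ : Fin n → G)
      (τ : Fin n → W) (ρ : Fin (n + 1) → Γ), Finite G → IsStringC σ → HasFV σ τ ρ →
      sch τ (n - 2) (by omega) = 3 →
      ∀ L : Subgroup G, (∀ g : G, g ∈ L ↔ g ∈ facetSub σ ∨ ¬ Share σ 1 g) →
        Finite Γ ∧ Nat.card Γ ≤ (L.index + 1) * (facetSub σ).relIndex L * Nat.card G) ∧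
    -- (2) the possible vertex-figures and numbers of classes
    (∀ (G W Γ : Type) [Group G] [Group W] [Group Γ] (n : ℕ) (_ : 3 ≤ n) (σ : Fin n → G)
      (τ : Fin n → W) (ρ : Fin (n + 1) → Γ), Finite G → IsStringC σ → HasFV σ τ ρ →
      sch τ (n - 2) (by omega) = 3 →
      (∀ (i : ℕ) (h : i + 1 < n), sch τ i h = 3 ∨ ¬ 3 ∣ sch τ i h) →
      ∀ L : Subgroup G, (∀ g : G, g ∈ L ↔ g ∈ facetSub σ ∨ ¬ Share σ 1 g) →
        ((∀ (i : ℕ) (h : i + 1 < n), sch τ i h = 3) ∧ (L.index = n ∨ L.index = n + 1)) ∨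
        ∃ (i : ℕ) (h : i + 1 < n), Even (sch τ i h) ∧
          (∀ (j : ℕ) (hj : j + 1 < n), i < j → sch τ j hj = 3) ∧ L.index + i + 1 = n) ∧
    -- (3) any two facets of `P₁` share a ridge: existence
    (∀ (G W : Type) [Group G] [Group W] (n : ℕ) (_ : 3 ≤ n) (σ : Fin n → G)
      (τ : Fin n → W), Finite G → IsStringC σ → IsStringC τ →
      sch τ (n - 2) (by omega) = 3 →
      (∀ (i : ℕ) (h : i + 1 < n), sch τ i h = 3 ∨ ¬ 3 ∣ sch τ i h) →
      (∀ (i : ℕ) (h : i + 1 < n), sch τ i h ≠ 2) →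
      (∀ g g' : G, Share σ g g') →
      ((∃ (Γ : Type) (_ : Group Γ) (ρ : Fin (n + 1) → Γ), HasFV σ τ ρ) ↔
        StrIso τ (smp n) ∧ (StrIso σ (dig n) ∨ StrIso σ (smp n) ∨ StrIso σ (dbl n)))) ∧
    -- (4) any two facets of `P₁` share a ridge: all polytopes
    (∀ (G W Γ : Type) [Group G] [Group W] [Group Γ] (n : ℕ) (_ : 3 ≤ n) (σ : Fin n → G)
      (τ : Fin n → W) (ρ : Fin (n + 1) → Γ), Finite G → IsStringC σ → HasFV σ τ ρ →
      sch τ (n - 2) (by omega) = 3 →
      (∀ (i : ℕ) (h : i + 1 < n), sch τ i h = 3 ∨ ¬ 3 ∣ sch τ i h) →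
      (∀ (i : ℕ) (h : i + 1 < n), sch τ i h ≠ 2) →
      (∀ g g' : G, Share σ g g') →
      StrIso ρ (dig (n + 1)) ∨ StrIso ρ (smp (n + 1)) ∨ StrIso ρ (dbl (n + 1))) := by
  refine ⟨?_, ?_, ?_, ?_⟩
  · intro G W Γ _ _ _ n hn σ τ ρ hfin hσ h hlast L hL
    exact main_fin n hn σ τ ρ hfin hσ h hlast L hL
  · intro G W Γ _ _ _ n hn σ τ ρ hfin hσ h hlast hsch L hL
    exact main_shape n hn σ τ ρ hfin hσ h hlast hsch L hL
  · intro G W _ _ n hn σ τ hfin hσ hτ hlast hsch h2 hN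
    exact main_neigh n hn σ τ hfin hσ hτ hlast hsch h2 hN
  · intro G W Γ _ _ _ n hn σ τ ρ hfin hσ h hlast hsch h2 hN
    exact neigh_big n hn σ τ ρ hfin hσ h hlast hsch h2 hN

end Pool.Agent.Results.MP_f11cdf_co.MultipartiteFacets
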