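import Pool.Agent.Helper83.UP.Simp
import Pool.Agent.Helper23.UP.Models

/-!
# Nilpotent analogues of the Danzer polytopes `2^K` (problem MP_f11cdf_co)

`K = (V, κ)` a finite regular polytope of rank `m`, `c ≥ 1`. The polytope `P(K, c) = nilP κ c` has
rank `n = m + 1`, vertex-figures `K` and group `N ⋊ V`, where `N` is the free product of groups
of order two indexed by the vertices of `K`, modulo `γ_(c+1)`; for `c = 1` it is `2^K`.
-/

namespace Pool.Agent.Results.MP_f11cdf_co.NilpotentDanzer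

open Pool.Agent.Helper23.UP Pool.Agent.Helper83.UP

theorem result :
    -- the facets: a finite regular polytope
    (∀ (V : Type) [Group V] [Finite V] (m : ℕ) (κ : Fin m → V) (c : ℕ), 1 ≤ c → IsStringC κ →
      Finite (Tw (inv_univ κ) c) ∧ IsStringC (nilP κ c)) ∧
    -- (1) existence for every regular polytope `(W, τ)` with facets `K`
    (∀ (V W : Type) [Group V] [Group W] (m : ℕ) (κ : Fin m → V) (τ : Fin (m + 1) → W) (c : ℕ),
      1 ≤ c → IsStringC κ → IsStringC τ →
      (∃ f : V →* W, Function.Injective f ∧ ∀ i, f (κ i) = τ i.castSucc) →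
      ∃ (Γ : Type) (_ : Group Γ) (ρ : Fin (m + 2) → Γ), IsUniversal (nilP κ c) τ ρ) ∧
    -- (2) it is infinite if two vertices of `(W, τ)` lie in no common facet
    (∀ (V W Γ : Type) [Group V] [Group W] [Group Γ] (m : ℕ) (κ : Fin m → V)
      (τ : Fin (m + 1) → W) (ρ : Fin (m + 2) → Γ) (c : ℕ),
      1 ≤ c → IsStringC κ → IsStringC τ →
      (∃ f : V →* W, Function.Injective f ∧ ∀ i, f (κ i) = τ i.castSucc) →
      (∃ x y : Vert τ, x ≠ y ∧ ∀ A ∈ facetSets τ, ¬ (x ∈ A ∧ y ∈ A)) →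
      IsUniversal (nilP κ c) τ ρ → Infinite Γ) ∧
    -- (3) for the simplex it is finite if and only if `c` is less than the rank of the facets
    (∀ (Γ : Type) [Group Γ] (m c : ℕ) (ρ : Fin (m + 2) → Γ), 1 ≤ c →
      IsUniversal (nilP (smp m) c) (smp (m + 1)) ρ → (Finite Γ ↔ c < m + 1)) := by
  refine ⟨?_, ?_, ?_, ?_⟩
  · intro V _ _ m κ c hc hκ
    refine ⟨?_, nilP_str κ hκ c hc⟩
    have h : Finite (Blk ({Set.univ} : Set (Set (Vert κ))) c) :=
      blk_finite _ c (fun S _ => ⟨Set.univ, rfl, Set.subset_univ _⟩)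
    exact Finite.of_equiv (Blk ({Set.univ} : Set (Set (Vert κ))) c × V)
      SemidirectProduct.equivProd.symm
  · rintro V W _ _ m κ τ c hc hκ hτ ⟨f, hinj, hf⟩
    exact ⟨_, _, uniP τ c, uniP_universal κ τ f hf hinj hκ hτ c hc⟩
  · rintro V W Γ _ _ _ m κ τ ρ c hc hκ hτ ⟨f, hinj, hf⟩ ⟨x, y, hne, hxy⟩ hρ
    have h1 := uniP_universal κ τ f hf hinj hκ hτ c hc
    obtain ⟨e, _⟩ := universal_unique _ _ _ _ h1 hρ
    have h2 := uniP_infinite τ c hc x y hne hxy
    exact Infinite.of_injective e e.injective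
  · intro Γ _ m c ρ hc hρ
    obtain ⟨f, hinj, hf⟩ : ∃ f : Equiv.Perm (Fin (m + 1)) →* Equiv.Perm (Fin (m + 2)),
        Function.Injective f ∧ ∀ i, f (smp m i) = smp (m + 1) i.castSucc :=
      (smp_FV m).fac
    have h1 := uniP_universal (smp m) (smp (m + 1)) f hf hinj (smp_str m) (smp_str (m + 1)) c hc
    obtain ⟨e, _⟩ := universal_unique _ _ _ _ h1 hρ
    rw [← smp_finite_iff m c]
    exact ⟨fun h => Finite.of_equiv _ e.symm.toEquiv, fun h => Finite.of_equiv _ e.toEquiv⟩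

end Pool.Agent.Results.MP_f11cdf_co.NilpotentDanzer
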